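import Mathlib

/-! # Values of a polynomial near the diagonal -/

set_option autoImplicit false

open Finset MvPolynomial

namespace Pool.Agent.Y743.PR

variable {k : ℕ}

/-- product of powers of `1 + v` -/
lemma prod_near (s : Fin k → ℕ) (v : Fin k → ℝ) (hv : ∀ j, 0 ≤ v j) (hS : ∑ j, s j * v j ≤ 1) :
    1 + ∑ j, s j * v j ≤ ∏ j, (1 + v j) ^ s j ∧
    ∏ j, (1 + v j) ^ s j ≤ 1 + ∑ j, s j * v j + (∑ j, s j * v j) ^ 2 := by
  constructor
  · have h1 : ∀ t : Finset (Fin k), 1 + ∑ j ∈ t, s j * v j ≤ ∏ j ∈ t, (1 + v j) ^ s j := by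
      intro t
      induction t using Finset.induction_on with
      | empty => simp
      | insert a t ha ih =>
        rw [Finset.sum_insert ha, Finset.prod_insert ha]
        have h2 : 1 + (s a : ℝ) * v a ≤ (1 + v a) ^ s a :=
          one_add_mul_le_pow (by linarith [hv a]) _
        have h3 : 0 ≤ ∑ j ∈ t, (s j : ℝ) * v j :=
          Finset.sum_nonneg fun j _ => mul_nonneg (Nat.cast_nonneg _) (hv j)
        have h4 : 0 ≤ (s a : ℝ) * v a := mul_nonneg (Nat.cast_nonneg _) (hv a)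
        calc 1 + ((s a : ℝ) * v a + ∑ j ∈ t, (s j : ℝ) * v j) ≤
            (1 + (s a : ℝ) * v a) * (1 + ∑ j ∈ t, (s j : ℝ) * v j) := by nlinarith
          _ ≤ _ := mul_le_mul h2 ih (by linarith) (by linarith)
    exact h1 Finset.univ
  · have h0 : 0 ≤ ∑ j, (s j : ℝ) * v j :=
      Finset.sum_nonneg fun j _ => mul_nonneg (Nat.cast_nonneg _) (hv j)
    have h1 : ∏ j, (1 + v j) ^ s j ≤ Real.exp (∑ j, s j * v j) := by
      rw [Real.exp_sum]
      refine Finset.prod_le_prod (fun j _ => pow_nonneg (by linarith [hv j]) _) fun j _ => ?_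
      rw [Real.exp_nat_mul]
      refine pow_le_pow_left₀ (by linarith [hv j]) ?_ _
      linarith [Real.add_one_le_exp (v j)]
    have h2 := Real.abs_exp_sub_one_sub_id_le (x := ∑ j, (s j : ℝ) * v j)
      (by rw [abs_of_nonneg h0]; exact hS)
    linarith [le_abs_self (Real.exp (∑ j, (s j : ℝ) * v j) - 1 - ∑ j, (s j : ℝ) * v j)]

/-- the main part of a monomial near the diagonal -/
noncomputable def mainTerm (m : ℕ) (a x : ℝ) (s : Fin k → ℕ) (g : Fin k → ℝ) : ℝ :=
  if ∑ j, s j = m then a * (x ^ m + x ^ (m - 1) * ∑ j, s j * g j)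
  else if ∑ j, s j = m - 1 then a * x ^ (m - 1) else 0

lemma mono_near {m : ℕ} (hm : 1 ≤ m) {a x G : ℝ} (s : Fin k → ℕ) (g : Fin k → ℝ)
    (hs : ∑ j, s j ≤ m) (hx : 1 ≤ x) (hG : 0 ≤ G) (hg0 : ∀ j, 0 ≤ g j) (hgG : ∀ j, g j ≤ G)
    (hGx : m * G ≤ x) :
    |a * ∏ j, (x + g j) ^ s j - mainTerm m a x s g| * x ≤
      |a| * (x ^ (m - 1) * (3 * m ^ 2 * (1 + G) ^ 2)) := by
  have hx0 : 0 < x := by linarith
  have hm1 : (1 : ℝ) ≤ m := by exact_mod_cast hm
  set v : Fin k → ℝ := fun j => g j / x with hv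
  set S : ℝ := ∑ j, (s j : ℝ) * v j with hS
  have hv0 : ∀ j, 0 ≤ v j := fun j => div_nonneg (hg0 j) hx0.le
  have hS0 : 0 ≤ S := Finset.sum_nonneg fun j _ => mul_nonneg (Nat.cast_nonneg _) (hv0 j)
  have hSg : x * S = ∑ j, (s j : ℝ) * g j := by
    rw [hS, Finset.mul_sum]
    refine Finset.sum_congr rfl fun j _ => ?_
    rw [hv]
    field_simp
  have hgs : ∑ j, (s j : ℝ) * g j ≤ m * G := by
    calc ∑ j, (s j : ℝ) * g j ≤ ∑ j, (s j : ℝ) * G :=
          Finset.sum_le_sum fun j _ => mul_le_mul_of_nonneg_left (hgG j) (Nat.cast_nonneg _)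
      _ = (∑ j, s j : ℕ) * G := by rw [← Finset.sum_mul]; push_cast; rfl
      _ ≤ m * G := by
          apply mul_le_mul_of_nonneg_right _ hG
          exact_mod_cast hs
  have hxS : x * S ≤ m * G := by rw [hSg]; exact hgs
  have hS1 : S ≤ 1 := by
    have : x * S ≤ x * 1 := by linarith
    exact le_of_mul_le_mul_left this hx0
  obtain ⟨e1, e2⟩ := prod_near s v hv0 hS1
  set Q : ℝ := ∏ j, (1 + v j) ^ s j with hQ
  have hprod : ∏ j, (x + g j) ^ s j = x ^ (∑ j, s j) * Q := by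
    rw [hQ, ← Finset.prod_pow_eq_pow_sum, ← Finset.prod_mul_distrib]
    refine Finset.prod_congr rfl fun j _ => ?_
    rw [← mul_pow, hv]
    congr 1
    field_simp
  rw [← hS] at e1 e2
  have hG1 : 1 ≤ (1 + G) ^ 2 := by nlinarith
  have hG2 : G ≤ (1 + G) ^ 2 := by nlinarith
  have hG3 : G ^ 2 ≤ (1 + G) ^ 2 := by nlinarith
  have hmm : (m : ℝ) ≤ m ^ 2 := by nlinarith
  have hmm1 : (1 : ℝ) ≤ m ^ 2 := by nlinarith
  have hxm : 0 < x ^ (m - 1) := pow_pos hx0 _
  have hpow : x ^ m = x ^ (m - 1) * x := by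
    rw [← pow_succ]
    congr 1
    omega
  unfold mainTerm
  split_ifs with h1 h2
  · rw [hprod, h1]
    have e3 : a * (x ^ m * Q) - a * (x ^ m + x ^ (m - 1) * ∑ j, (s j : ℝ) * g j) =
        a * (x ^ m * (Q - 1 - S)) := by
      rw [← hSg, hpow]
      ring
    have e4 : 0 ≤ Q - 1 - S := by linarith
    rw [e3, abs_mul, mul_assoc]
    apply mul_le_mul_of_nonneg_left _ (abs_nonneg _)
    rw [abs_of_nonneg (mul_nonneg (by positivity) e4), hpow]
    have e5 : x ^ (m - 1) * x * (Q - 1 - S) * x ≤ x ^ (m - 1) * (x * S) ^ 2 := by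
      have e6 : (Q - 1 - S) * x ^ 2 ≤ S ^ 2 * x ^ 2 :=
        mul_le_mul_of_nonneg_right (by linarith) (by positivity)
      calc x ^ (m - 1) * x * (Q - 1 - S) * x = x ^ (m - 1) * ((Q - 1 - S) * x ^ 2) := by ring
        _ ≤ x ^ (m - 1) * (S ^ 2 * x ^ 2) := mul_le_mul_of_nonneg_left e6 hxm.le
        _ = _ := by ring
    refine e5.trans (mul_le_mul_of_nonneg_left ?_ hxm.le)
    have e7 : (x * S) ^ 2 ≤ (m * G) ^ 2 := pow_le_pow_left₀ (by positivity) hxS 2
    have e8 : (m : ℝ) ^ 2 * G ^ 2 ≤ m ^ 2 * (1 + G) ^ 2 :=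
      mul_le_mul_of_nonneg_left hG3 (by positivity)
    nlinarith
  · rw [hprod, h2]
    have e3 : a * (x ^ (m - 1) * Q) - a * x ^ (m - 1) = a * (x ^ (m - 1) * (Q - 1)) := by ring
    have e4 : 0 ≤ Q - 1 := by linarith
    rw [e3, abs_mul, mul_assoc]
    apply mul_le_mul_of_nonneg_left _ (abs_nonneg _)
    rw [abs_of_nonneg (mul_nonneg hxm.le e4), mul_assoc]
    apply mul_le_mul_of_nonneg_left _ hxm.le
    have e5 : Q - 1 ≤ 2 * S := by nlinarith
    have e6 : (Q - 1) * x ≤ 2 * (m * G) := by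
      calc (Q - 1) * x ≤ 2 * S * x := mul_le_mul_of_nonneg_right e5 hx0.le
        _ = 2 * (x * S) := by ring
        _ ≤ _ := by linarith
    have e7 : (m : ℝ) * G ≤ m ^ 2 * (1 + G) ^ 2 :=
      mul_le_mul hmm hG2 hG (by positivity)
    have e8 : 0 ≤ (m : ℝ) ^ 2 * (1 + G) ^ 2 := by positivity
    linarith
  · rw [hprod, sub_zero, abs_mul, mul_assoc]
    apply mul_le_mul_of_nonneg_left _ (abs_nonneg _)
    have hQ0 : 0 ≤ Q := by linarith
    rw [abs_of_nonneg (mul_nonneg (by positivity) hQ0)]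
    have e3 : Q ≤ 3 := by nlinarith
    have e4 : x ^ (∑ j, s j) * x ≤ x ^ (m - 1) := by
      rw [← pow_succ]
      exact pow_le_pow_right₀ hx (by omega)
    have e5 : (1 : ℝ) ≤ m ^ 2 * (1 + G) ^ 2 := by nlinarith
    calc x ^ (∑ j, s j) * Q * x = (x ^ (∑ j, s j) * x) * Q := by ring
      _ ≤ x ^ (m - 1) * 3 := mul_le_mul e4 e3 hQ0 hxm.le
      _ ≤ _ := by
        apply mul_le_mul_of_nonneg_left _ hxm.le
        nlinarith

/-- the gradient of the leading form at `(1, …, 1)` -/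
noncomputable def grad (m : ℕ) (P : MvPolynomial (Fin k) ℝ) (j : Fin k) : ℝ :=
  eval (fun _ => 1) (pderiv j (homogeneousComponent m P))

lemma deg_eq (s : Fin k →₀ ℕ) : Finsupp.degree s = ∑ j, s j := by
  rw [Finsupp.degree_eq_sum]

lemma grad_eq (m : ℕ) (P : MvPolynomial (Fin k) ℝ) (j : Fin k) :
    grad m P j = ∑ s ∈ P.support with (∑ j, s j) = m, coeff s P * s j := by
  unfold grad
  rw [homogeneousComponent_apply, map_sum, map_sum]
  refine Finset.sum_congr ?_ fun s _ => ?_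
  · ext s
    rw [Finset.mem_filter, Finset.mem_filter, deg_eq]
  · rw [pderiv_monomial, eval_monomial]
    simp [Finsupp.prod]

/-- the value of the leading form at `(1, …, 1)` -/
noncomputable def lead (m : ℕ) (P : MvPolynomial (Fin k) ℝ) : ℝ :=
  ∑ s ∈ P.support with (∑ j, s j) = m, coeff s P

lemma euler (m : ℕ) (P : MvPolynomial (Fin k) ℝ) : ∑ j, grad m P j = m * lead m P := by
  simp_rw [grad_eq]
  rw [Finset.sum_comm, lead, Finset.mul_sum]
  refine Finset.sum_congr rfl fun s hs => ?_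
  rw [Finset.mem_filter] at hs
  rw [← Finset.mul_sum, ← hs.2]
  push_cast
  ring

/-- the number of monomials of degree at most `m` in `k` variables -/
noncomputable def nmon (k m : ℕ) : ℕ := {s : Fin k →₀ ℕ | Finsupp.degree s ≤ m}.ncard

lemma card_support {m : ℕ} {P : MvPolynomial (Fin k) ℝ} (hP : P.totalDegree ≤ m) :
    P.support.card ≤ nmon k m := by
  unfold nmon
  rw [← Set.ncard_coe_finset]
  refine Set.ncard_le_ncard (fun s hs => ?_) (Finsupp.finite_of_degree_le m)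
  have := le_totalDegree (p := P) (s := s) (by simpa using hs)
  rw [Set.mem_ofPred_eq, deg_eq]
  rw [Finsupp.sum_fintype _ _ (fun _ => rfl)] at this
  exact this.trans hP

/-- **values near the diagonal** -/
theorem near_diag {m : ℕ} (hm : 1 ≤ m) {P : MvPolynomial (Fin k) ℝ} (hP : P.totalDegree ≤ m)
    {H x G : ℝ} (g : Fin k → ℝ) (hH : ∀ s, |coeff s P| ≤ H) (hx : 1 ≤ x) (hG : 0 ≤ G)
    (hg0 : ∀ j, 0 ≤ g j) (hgG : ∀ j, g j ≤ G) (hGx : m * G ≤ x) :
    |eval (fun j => x + g j) P -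
        x ^ (m - 1) * (x * lead m P + ∑ j, grad m P j * g j + lead (m - 1) P)| * x ≤
      nmon k m * H * (x ^ (m - 1) * (3 * m ^ 2 * (1 + G) ^ 2)) := by
  classical
  have hH0 : 0 ≤ H := (abs_nonneg _).trans (hH 0)
  have hpow : x ^ m = x ^ (m - 1) * x := by
    rw [← pow_succ]
    congr 1
    omega
  have e1 : x ^ (m - 1) * (x * lead m P + ∑ j, grad m P j * g j + lead (m - 1) P) =
      ∑ s ∈ P.support, mainTerm m (coeff s P) x s g := by
    have e2 : ∑ s ∈ P.support, mainTerm m (coeff s P) x s g =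
        ∑ s ∈ P.support with (∑ j, s j) = m,
          coeff s P * (x ^ m + x ^ (m - 1) * ∑ j, (s j : ℝ) * g j) +
        ∑ s ∈ P.support with (∑ j, s j) = m - 1, coeff s P * x ^ (m - 1) := by
      rw [Finset.sum_filter, Finset.sum_filter, ← Finset.sum_add_distrib]
      refine Finset.sum_congr rfl fun s _ => ?_
      unfold mainTerm
      split_ifs with h1 h2 h2
      · omega
      · ring
      · ring
      · ring
    rw [e2]
    have e3 : ∑ j, grad m P j * g j =
        ∑ s ∈ P.support with (∑ j, s j) = m, coeff s P * ∑ j, (s j : ℝ) * g j := by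
      simp_rw [grad_eq, Finset.sum_mul]
      rw [Finset.sum_comm]
      refine Finset.sum_congr rfl fun s _ => ?_
      rw [Finset.mul_sum]
      refine Finset.sum_congr rfl fun j _ => ?_
      ring
    rw [e3]
    unfold lead
    rw [mul_add, mul_add, ← mul_assoc, ← hpow, Finset.mul_sum, Finset.mul_sum, Finset.mul_sum,
      ← Finset.sum_add_distrib]
    congr 1
    · refine Finset.sum_congr rfl fun s _ => ?_
      ring
    · refine Finset.sum_congr rfl fun s _ => ?_
      ring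
  rw [e1, eval_eq', ← Finset.sum_sub_distrib]
  have hdeg : ∀ s ∈ P.support, ∑ j, s j ≤ m := by
    intro s hs
    have := le_totalDegree (p := P) hs
    rw [Finsupp.sum_fintype _ _ (fun _ => rfl)] at this
    exact this.trans hP
  calc |∑ s ∈ P.support, (coeff s P * ∏ i, (x + g i) ^ s i - mainTerm m (coeff s P) x s g)| * x ≤
      (∑ s ∈ P.support,
        |coeff s P * ∏ i, (x + g i) ^ s i - mainTerm m (coeff s P) x s g|) * x :=
        mul_le_mul_of_nonneg_right (Finset.abs_sum_le_sum_abs _ _) (by linarith)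
    _ = ∑ s ∈ P.support,
        |coeff s P * ∏ i, (x + g i) ^ s i - mainTerm m (coeff s P) x s g| * x :=
        Finset.sum_mul _ _ _
    _ ≤ ∑ s ∈ P.support, H * (x ^ (m - 1) * (3 * m ^ 2 * (1 + G) ^ 2)) := by
        refine Finset.sum_le_sum fun s hs => ?_
        refine (mono_near hm s g (hdeg s hs) hx hG hg0 hgG hGx).trans ?_
        exact mul_le_mul_of_nonneg_right (hH s) (by positivity)
    _ = P.support.card * (H * (x ^ (m - 1) * (3 * m ^ 2 * (1 + G) ^ 2))) := by
        rw [Finset.sum_const, nsmul_eq_mul]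
    _ ≤ nmon k m * (H * (x ^ (m - 1) * (3 * m ^ 2 * (1 + G) ^ 2))) := by
        apply mul_le_mul_of_nonneg_right _ (by positivity)
        exact_mod_cast card_support hP
    _ = _ := by ring

end Pool.Agent.Y743.PR
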