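import Pool.Agent.Y743.LR.NT5
import Pool.Agent.Y743.PR.Alg

/-! # Polynomial relations between consecutive ordinates -/

set_option autoImplicit false

open Filter Topology Set

namespace Pool.Agent.Y743.PR

open SG (ord NZ)
open LG (dlt)
open SP (RHs)
open Pool.Agent.Y743.LR (ord_tendsto ordinates ord_step)

/-- every gap is at most logarithmic -/
lemma gap_log (hRH : RHs) : ∃ C : ℝ, 0 < C ∧ ∀ n : ℕ, 1 ≤ n → dlt n ≤ C * (1 + Real.log n) := by
  obtain ⟨c, y0, hc, hy0, h⟩ := LG.gap_uniform hRH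
  set M : ℝ := max y0 3 with hM
  have hM3 : 3 ≤ M := le_max_right _ _
  refine ⟨M + 1 / c, by positivity, fun n hn => ?_⟩
  have hl0 : 0 ≤ Real.log n := Real.log_nonneg (by exact_mod_cast hn)
  set y : ℝ := M + 1 / c * (1 + Real.log n) with hy
  have hyM : M ≤ y := by
    rw [hy]
    have : 0 ≤ 1 / c * (1 + Real.log n) := by positivity
    linarith
  have hyC : y ≤ (M + 1 / c) * (1 + Real.log n) := by
    rw [hy]
    nlinarith
  have hy3 : 3 ≤ y := hM3.trans hyM
  have hly : 1 ≤ Real.log y := by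
    rw [Real.le_log_iff_exp_le (by linarith)]
    linarith [Real.exp_one_lt_d9]
  have h1 := h n hn y ((le_max_left _ _).trans hyM)
  have hn0 : (0 : ℝ) < n := by exact_mod_cast hn
  have h2 : (n : ℝ) * Real.exp (-c * y * Real.log y) < 1 := by
    have h3 : 1 + Real.log n ≤ c * y := by
      have h4 : c * y = c * M + (1 + Real.log n) := by
        rw [hy]
        field_simp
      rw [h4]
      have : 0 ≤ c * M := by positivity
      linarith
    have h5 : c * y * 1 ≤ c * y * Real.log y := mul_le_mul_of_nonneg_left hly (by positivity)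
    calc (n : ℝ) * Real.exp (-c * y * Real.log y) ≤ n * Real.exp (-(1 + Real.log n)) := by
          apply mul_le_mul_of_nonneg_left _ hn0.le
          apply Real.exp_le_exp.mpr
          linarith
      _ = Real.exp (-1) := by
          rw [neg_add, Real.exp_add, Real.exp_neg (Real.log n), Real.exp_log hn0]
          field_simp
      _ < 1 := by
          rw [Real.exp_lt_one_iff]
          norm_num
  have h3 : ({m : ℕ | 1 ≤ m ∧ m ≤ n ∧ y ≤ dlt m}.ncard : ℝ) < 1 := h1.trans_lt h2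
  have h4 : {m : ℕ | 1 ≤ m ∧ m ≤ n ∧ y ≤ dlt m}.ncard = 0 := by
    have : {m : ℕ | 1 ≤ m ∧ m ≤ n ∧ y ≤ dlt m}.ncard < 1 := by exact_mod_cast h3
    omega
  have hfin : {m : ℕ | 1 ≤ m ∧ m ≤ n ∧ y ≤ dlt m}.Finite :=
    (Set.finite_Icc 1 n).subset fun m hm => ⟨hm.1, hm.2.1⟩
  rw [Set.ncard_eq_zero hfin] at h4
  by_contra hcon
  push Not at hcon
  have h5 : n ∈ {m : ℕ | 1 ≤ m ∧ m ≤ n ∧ y ≤ dlt m} := ⟨hn, le_rfl, hyC.trans hcon.le⟩
  rw [h4] at h5
  exact h5

lemma gap_le (hRH : RHs) : ∃ C : ℝ, 0 < C ∧ ∃ n0 : ℕ, 1 ≤ n0 ∧ ∀ n : ℕ, n0 ≤ n →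
    ord (n + 1) - ord n ≤ C * (1 + Real.log n) := by
  obtain ⟨C, hC, h⟩ := gap_log hRH
  obtain ⟨n0, hn0⟩ := (ord_tendsto.eventually_ge_atTop 3).exists_forall_of_atTop
  refine ⟨8 * C, by positivity, max 1 n0, le_max_left _ _, fun n hn => ?_⟩
  have hn1 : 1 ≤ n := (le_max_left _ _).trans hn
  have hx := hn0 n ((le_max_right _ _).trans hn)
  have hstep := ord_step hn1
  have hx0 : 0 < ord n := by linarith
  have h1 := h n hn1
  unfold LG.dlt at h1
  have hpi := Real.pi_pos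
  have hpi4 := Real.pi_lt_four
  rw [div_le_iff₀ (by positivity)] at h1
  have hl1 : Real.log (ord n) ≤ Real.log (ord (n + 1)) := Real.log_le_log hx0 hstep
  have hl2 : 1 ≤ Real.log (ord (n + 1)) := by
    rw [Real.le_log_iff_exp_le (by linarith)]
    linarith [Real.exp_one_lt_d9]
  have hl0 : 0 ≤ Real.log n := Real.log_nonneg (by exact_mod_cast hn1)
  have h2 : ord (n + 1) - ord n ≤
      ord (n + 1) * Real.log (ord (n + 1)) - ord n * Real.log (ord n) := by nlinarith
  have h3 : 0 ≤ C * (1 + Real.log n) := by positivity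
  nlinarith

lemma span_le (hRH : RHs) (k : ℕ) : ∃ C : ℝ, 0 < C ∧ ∃ n0 : ℕ, 1 ≤ n0 ∧ ∀ n : ℕ, n0 ≤ n →
    ord (n + k) - ord n ≤ C * (1 + Real.log n) := by
  obtain ⟨C, hC, n0, hn0, h⟩ := gap_le hRH
  induction k with
  | zero =>
    refine ⟨1, one_pos, 1, le_rfl, fun n hn => ?_⟩
    have hl0 : 0 ≤ Real.log n := Real.log_nonneg (by exact_mod_cast hn)
    simp only [add_zero, sub_self]
    positivity
  | succ k ih =>
    obtain ⟨C', hC', n1, hn1, h'⟩ := ih
    refine ⟨C' + C * (1 + k), by positivity, max n0 n1, hn0.trans (le_max_left _ _),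
      fun n hn => ?_⟩
    have a1 := h' n ((le_max_right _ _).trans hn)
    have a2 := h (n + k) (((le_max_left _ _).trans hn).trans (Nat.le_add_right _ _))
    have hn1 : 1 ≤ n := hn0.trans ((le_max_left _ _).trans hn)
    have hn0' : (1 : ℝ) ≤ n := by exact_mod_cast hn1
    have hl0 : 0 ≤ Real.log n := Real.log_nonneg hn0'
    have a3 : Real.log ((n + k : ℕ) : ℝ) ≤ Real.log n + k := by
      have b1 : (((n + k : ℕ)) : ℝ) ≤ n * (1 + k) := by
        push_cast
        have : (0 : ℝ) ≤ k := Nat.cast_nonneg k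
        nlinarith
      calc Real.log ((n + k : ℕ) : ℝ) ≤ Real.log (n * (1 + k)) :=
            Real.log_le_log (by positivity) b1
        _ = Real.log n + Real.log (1 + k) := Real.log_mul (by positivity) (by positivity)
        _ ≤ _ := by
            have : Real.log (1 + (k : ℝ)) ≤ (1 + k) - 1 := Real.log_le_sub_one_of_pos (by positivity)
            linarith
    have a4 : 1 + Real.log ((n + k : ℕ) : ℝ) ≤ (1 + k) * (1 + Real.log n) := by
      have : 0 ≤ (k : ℝ) * Real.log n := by positivity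
      nlinarith
    have a5 : C * (1 + Real.log ((n + k : ℕ) : ℝ)) ≤ C * ((1 + k) * (1 + Real.log n)) :=
      mul_le_mul_of_nonneg_left a4 hC.le
    have e1 : n + (k + 1) = n + k + 1 := by ring
    rw [e1]
    linarith

/-- `n` is much smaller than the `n`-th ordinate times a power of `log` -/
lemma big {θ : ℝ} (hθ0 : 0 ≤ θ) (hθ : θ < 1) :
    ∀ᶠ n : ℕ in atTop, (n : ℝ) ^ θ * Real.log (ord n) ≤ ord n := by
  obtain ⟨C, T1, hC, hT1, hup⟩ := LG.GapAux.NZ_up
  have h1 : ∀ᶠ x : ℝ in atTop, (C * (x * Real.log x)) ^ θ * Real.log x ≤ x := by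
    have h2 := (isLittleO_log_rpow_rpow_atTop (θ + 1) (by linarith : 0 < 1 - θ)).bound
      (c := 1 / C ^ θ) (by positivity)
    filter_upwards [h2, eventually_gt_atTop 1] with x hx hx1
    have hl : 0 < Real.log x := Real.log_pos hx1
    have hx0 : 0 < x := by linarith
    rw [Real.norm_of_nonneg (by positivity), Real.norm_of_nonneg (by positivity)] at hx
    rw [Real.mul_rpow hC.le (by positivity), Real.mul_rpow hx0.le hl.le]
    calc C ^ θ * (x ^ θ * Real.log x ^ θ) * Real.log x =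
        C ^ θ * x ^ θ * (Real.log x ^ (θ + 1)) := by
          rw [Real.rpow_add hl, Real.rpow_one]
          ring
      _ ≤ C ^ θ * x ^ θ * (1 / C ^ θ * x ^ (1 - θ)) := by gcongr
      _ = x ^ θ * x ^ (1 - θ) := by
          have : C ^ θ ≠ 0 := by positivity
          field_simp
      _ = x := by
          rw [← Real.rpow_add hx0]
          norm_num
  filter_upwards [ord_tendsto.eventually h1, ord_tendsto.eventually_ge_atTop (2 * T1),
    eventually_ge_atTop 1] with n hn hn2 hn1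
  have hx6 : 6 ≤ ord n := by linarith
  have h3 : (n : ℝ) ≤ C * (ord n * Real.log (ord n)) := by
    have h4 : n ≤ NZ (ord n) := (SG.ord_le_iff hn1 _).mp le_rfl
    have h5 := hup (ord n / 2) (by linarith)
    rw [mul_div_cancel₀ _ (two_ne_zero)] at h5
    have h6 : Real.log (ord n / 2) ≤ Real.log (ord n) :=
      Real.log_le_log (by linarith) (by linarith)
    have h7 : 0 ≤ Real.log (ord n) := Real.log_nonneg (by linarith)
    calc (n : ℝ) ≤ NZ (ord n) := by exact_mod_cast h4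
      _ ≤ C * (ord n / 2 * Real.log (ord n / 2)) := h5
      _ ≤ C * (ord n / 2 * Real.log (ord n)) := by gcongr
      _ ≤ C * (ord n * Real.log (ord n)) := by
          have : 0 ≤ C * (ord n * Real.log (ord n)) := by positivity
          linarith
  refine le_trans ?_ hn
  apply mul_le_mul_of_nonneg_right _ (Real.log_nonneg (by linarith))
  exact Real.rpow_le_rpow (Nat.cast_nonneg _) h3 hθ0

/-- the numerical conditions on a large index -/
structure Ok (k m : ℕ) (θ ε C : ℝ) (n : ℕ) : Prop where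
  n1 : 1 ≤ n
  x3 : 3 ≤ ord n
  sp : ord (n + k) - ord n ≤ C * (1 + Real.log n)
  mx : m * (C * (1 + Real.log n)) ≤ ord n
  er : nmon k m * (3 * m ^ 2 * (1 + C * (1 + Real.log n)) ^ 2) * (2 / ε * (n : ℝ) ^ θ) *
    Real.log (ord n) ≤ ε / (2 * (m * (k + 1))) * ord n

lemma ok_ev (hRH : RHs) (k m : ℕ) (hm : 1 ≤ m) {θ ε : ℝ} (hθ0 : 0 ≤ θ) (hθ : θ < 1) (hε : 0 < ε) :
    ∃ C : ℝ, 0 < C ∧ ∀ᶠ n : ℕ in atTop, Ok k m θ ε C n := by
  obtain ⟨C, hC, n0, hn0, hsp⟩ := span_le hRH k
  refine ⟨C, hC, ?_⟩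
  have hm0 : (1 : ℝ) ≤ m := by exact_mod_cast hm
  set θ1 : ℝ := (θ + 1) / 2 with hθ1
  set A : ℝ := nmon k m * (3 * m ^ 2) * (2 / ε) with hA
  set B : ℝ := ε / (2 * (m * (k + 1))) with hB
  have hA0 : 0 ≤ A := by positivity
  have hB0 : 0 < B := by positivity
  have ht : Tendsto (fun n : ℕ => (n : ℝ)) atTop atTop := tendsto_natCast_atTop_atTop
  -- growth comparisons
  have h1 : ∀ᶠ x : ℝ in atTop, A * (1 + C * (1 + Real.log x)) ^ 2 * x ^ θ ≤ B * x ^ θ1 := by
    have h2 := (isLittleO_log_rpow_rpow_atTop 2 (by rw [hθ1]; linarith : 0 < θ1 - θ)).bound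
      (c := B / ((A + 1) * (1 + 2 * C) ^ 2)) (by positivity)
    filter_upwards [h2, eventually_gt_atTop 3] with x hx hx3
    have hx0 : 0 < x := by linarith
    have hl : 1 ≤ Real.log x := by
      rw [Real.le_log_iff_exp_le hx0]
      linarith [Real.exp_one_lt_d9]
    rw [Real.norm_of_nonneg (by positivity), Real.norm_of_nonneg (by positivity)] at hx
    have e1 : Real.log x ^ (2 : ℝ) = Real.log x ^ 2 := by
      rw [← Real.rpow_natCast]
      norm_num
    rw [e1] at hx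
    have e2 : (1 + C * (1 + Real.log x)) ^ 2 ≤ ((1 + 2 * C) * Real.log x) ^ 2 := by
      apply pow_le_pow_left₀ (by positivity)
      nlinarith
    have e3 : x ^ θ1 = x ^ (θ1 - θ) * x ^ θ := by
      rw [← Real.rpow_add hx0]
      norm_num
    calc A * (1 + C * (1 + Real.log x)) ^ 2 * x ^ θ ≤
        (A + 1) * ((1 + 2 * C) * Real.log x) ^ 2 * x ^ θ := by
          apply mul_le_mul_of_nonneg_right _ (by positivity)
          exact mul_le_mul (by linarith) e2 (by positivity) (by positivity)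
      _ = ((A + 1) * (1 + 2 * C) ^ 2) * (Real.log x ^ 2) * x ^ θ := by ring
      _ ≤ ((A + 1) * (1 + 2 * C) ^ 2) *
          (B / ((A + 1) * (1 + 2 * C) ^ 2) * x ^ (θ1 - θ)) * x ^ θ := by gcongr
      _ = B * x ^ θ1 := by
          rw [e3]
          field_simp
  have h3 : ∀ᶠ x : ℝ in atTop, m * (C * (1 + Real.log x)) ≤ x ^ (1 / 2 : ℝ) := by
    have h2 := (isLittleO_log_rpow_rpow_atTop 1 (by norm_num : (0 : ℝ) < 1 / 2)).bound
      (c := 1 / (2 * m * C)) (by positivity)
    filter_upwards [h2, eventually_gt_atTop 3] with x hx hx3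
    have hx0 : 0 < x := by linarith
    have hl : 1 ≤ Real.log x := by
      rw [Real.le_log_iff_exp_le hx0]
      linarith [Real.exp_one_lt_d9]
    rw [Real.rpow_one, Real.norm_of_nonneg (by positivity),
      Real.norm_of_nonneg (by positivity)] at hx
    calc m * (C * (1 + Real.log x)) ≤ m * (C * (2 * Real.log x)) := by gcongr; linarith
      _ = (2 * m * C) * Real.log x := by ring
      _ ≤ (2 * m * C) * (1 / (2 * m * C) * x ^ (1 / 2 : ℝ)) := by gcongr
      _ = _ := by field_simp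
  filter_upwards [ht.eventually h1, ht.eventually h3, eventually_ge_atTop n0,
    ord_tendsto.eventually_ge_atTop 3, big (θ := θ1) (by rw [hθ1]; linarith) (by rw [hθ1]; linarith),
    big (θ := 1 / 2) (by norm_num) (by norm_num)] with n b1 b2 b3 b4 b5 b6
  have hl : 1 ≤ Real.log (ord n) := by
    rw [Real.le_log_iff_exp_le (by linarith)]
    linarith [Real.exp_one_lt_d9]
  refine ⟨hn0.trans b3, b4, hsp n b3, ?_, ?_⟩
  · refine b2.trans (le_trans ?_ b6)
    have : 0 ≤ (n : ℝ) ^ (1 / 2 : ℝ) := by positivity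
    nlinarith
  · calc nmon k m * (3 * m ^ 2 * (1 + C * (1 + Real.log n)) ^ 2) * (2 / ε * (n : ℝ) ^ θ) *
          Real.log (ord n) =
        A * (1 + C * (1 + Real.log n)) ^ 2 * (n : ℝ) ^ θ * Real.log (ord n) := by
          rw [hA]; ring
      _ ≤ B * (n : ℝ) ^ θ1 * Real.log (ord n) := by gcongr
      _ = B * ((n : ℝ) ^ θ1 * Real.log (ord n)) := by ring
      _ ≤ B * ord n := mul_le_mul_of_nonneg_left b5 hB0.le

/-- the coefficients of the linear form -/
noncomputable def cf {k : ℕ} (m : ℕ) (P : MvPolynomial (Fin k) ℝ) (j : Fin k) : ℝ :=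
  grad m P j - if (j : ℕ) = 0 then (m - 1) * lead m P else 0

lemma sum_zero {k : ℕ} (i : Fin k) (a : ℝ) (f : ℕ → ℝ) :
    ∑ j : Fin k, (if (j : ℕ) = 0 then a else 0) * f j = a * f 0 := by
  have hk : 0 < k := lt_of_le_of_lt (Nat.zero_le _) i.2
  rw [Finset.sum_eq_single ⟨0, hk⟩]
  · simp
  · intro j _ hj
    rw [if_neg, zero_mul]
    intro h
    exact hj (Fin.ext h)
  · intro h
    exact absurd (Finset.mem_univ _) h

lemma cf_form {k m : ℕ} (P : MvPolynomial (Fin k) ℝ) (i : Fin k) (x : ℝ) (f : ℕ → ℝ)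
    (hf : f 0 = x) :
    ∑ j : Fin k, cf m P j * f j = x * lead m P + ∑ j : Fin k, grad m P j * (f j - x) := by
  unfold cf
  simp_rw [sub_mul, mul_sub]
  rw [Finset.sum_sub_distrib, Finset.sum_sub_distrib, sum_zero i, hf, ← Finset.sum_mul, euler]
  ring

lemma cf_sum {k m : ℕ} (P : MvPolynomial (Fin k) ℝ) (i : Fin k) :
    ∑ j : Fin k, cf m P j = lead m P := by
  unfold cf
  rw [Finset.sum_sub_distrib, euler]
  have := sum_zero i (((m : ℝ) - 1) * lead m P) (fun _ => 1)
  simp only [mul_one] at this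
  rw [this]
  ring

lemma cf_low {k m : ℕ} (hm : 1 ≤ m) (P : MvPolynomial (Fin k) ℝ) (i : Fin k)
    (hi : grad m P i ≠ 0) : ∃ j : Fin k, |grad m P i| ≤ m * (k + 1) * |cf m P j| := by
  by_contra hcon
  push Not at hcon
  have hm1 : (1 : ℝ) ≤ m := by exact_mod_cast hm
  set A : ℝ := |grad m P i| with hA
  have hA0 : 0 < A := abs_pos.mpr hi
  set K : ℝ := m * (k + 1) with hK
  have hK0 : 0 < K := by positivity
  have h1 : ∀ j, |cf m P j| ≤ A / K := fun j => by
    rw [le_div_iff₀ hK0]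
    have := hcon j
    linarith
  have h2 : |lead m P| ≤ k * (A / K) := by
    rw [← cf_sum P i]
    refine (Finset.abs_sum_le_sum_abs _ _).trans ?_
    refine (Finset.sum_le_sum fun j _ => h1 j).trans ?_
    rw [Finset.sum_const, Finset.card_univ, Fintype.card_fin, nsmul_eq_mul]
  have h3 : A ≤ |cf m P i| + (m - 1) * |lead m P| := by
    have e1 : grad m P i = cf m P i + if (i : ℕ) = 0 then (m - 1) * lead m P else 0 := by
      unfold cf
      ring
    rw [hA, e1]
    refine (abs_add_le _ _).trans ?_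
    gcongr
    split_ifs
    · rw [abs_mul, abs_of_nonneg (by linarith : (0 : ℝ) ≤ m - 1)]
    · rw [abs_zero]
      exact mul_nonneg (by linarith) (abs_nonneg _)
  have h4 : |cf m P i| < A / K := by
    rw [lt_div_iff₀ hK0]
    have := hcon i
    linarith
  have h5 : ((m : ℝ) - 1) * |lead m P| ≤ (m - 1) * (k * (A / K)) :=
    mul_le_mul_of_nonneg_left h2 (by linarith)
  have h6 : A / K + (m - 1) * (k * (A / K)) ≤ K * (A / K) := by
    have h7 : 0 ≤ A / K := by positivity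
    have h8 : 1 + ((m : ℝ) - 1) * k ≤ K := by
      rw [hK]
      have : (0 : ℝ) ≤ k := Nat.cast_nonneg _
      nlinarith
    nlinarith
  have h9 : K * (A / K) = A := by field_simp
  linarith

/-- at a large index at which the linear form is not small the polynomial is not small -/
lemma point {k m : ℕ} (hm : 1 ≤ m) {θ ε C : ℝ} (hε : 0 < ε) (hC : 0 < C) {n N : ℕ}
    (hok : Ok k m θ ε C n) (hθ0 : 0 ≤ θ) (hθ : θ < 1) (hnN : ε / 2 * N ≤ n) (hε1 : ε ≤ 1)
    {P : MvPolynomial (Fin k) ℝ}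
    (hP : P.totalDegree ≤ m) (i : Fin k) {A : ℝ} (hA : 0 < A)
    (hco : ∀ s, |MvPolynomial.coeff s P| ≤ A * (N : ℝ) ^ θ)
    (hlin : ε * A / (m * (k + 1) * Real.log (ord n)) ≤
      |∑ j : Fin k, cf m P j * ord (n + j) + lead (m - 1) P|) :
    ε / (2 * (k + 1)) / m * A * ord n ^ (m - 1) / Real.log (ord n) ≤
      |MvPolynomial.eval (fun j : Fin k => ord (n + j)) P| := by
  obtain ⟨hn1, hx3, hsp, hmx, her⟩ := hok
  set x : ℝ := ord n with hx
  set G : ℝ := C * (1 + Real.log n) with hG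
  have hn0 : (1 : ℝ) ≤ n := by exact_mod_cast hn1
  have hln : 0 ≤ Real.log n := Real.log_nonneg hn0
  have hG0 : 0 ≤ G := by positivity
  have hx0 : 0 < x := by linarith
  have hl : 0 < Real.log x := Real.log_pos (by linarith)
  have hm1 : (1 : ℝ) ≤ m := by exact_mod_cast hm
  set g : Fin k → ℝ := fun j => ord (n + j) - x with hg
  have hg0 : ∀ j, 0 ≤ g j := fun j => by
    have := SG.ord_mono hn1 (Nat.le_add_right n j)
    rw [hg]
    dsimp only
    linarith
  have hgG : ∀ j, g j ≤ G := fun j => by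
    have h1 : ord (n + j) ≤ ord (n + k) := SG.ord_mono (by omega) (by have := j.2; omega)
    rw [hg]
    dsimp only
    linarith
  have hnear := near_diag hm hP g hco (by linarith : 1 ≤ x) hG0 hg0 hgG hmx
  have e1 : (fun j => x + g j) = fun j : Fin k => ord (n + j) := by
    funext j
    rw [hg]
    ring
  rw [e1] at hnear
  have e2 : x * lead m P + ∑ j, grad m P j * g j + lead (m - 1) P =
      ∑ j : Fin k, cf m P j * ord (n + j) + lead (m - 1) P := by
    rw [cf_form P i x (fun j => ord (n + j)) (by rw [hx]; rfl)]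
  rw [e2] at hnear
  set W : ℝ := ∑ j : Fin k, cf m P j * ord (n + j) + lead (m - 1) P with hW
  set V : ℝ := MvPolynomial.eval (fun j : Fin k => ord (n + j)) P with hV
  have hxm : 0 < x ^ (m - 1) := pow_pos hx0 _
  -- the error
  have hNθ : (N : ℝ) ^ θ ≤ 2 / ε * (n : ℝ) ^ θ := by
    have h1 : (N : ℝ) ≤ 2 / ε * n := by
      have : (N : ℝ) = 2 / ε * (ε / 2 * N) := by field_simp
      rw [this]
      exact mul_le_mul_of_nonneg_left hnN (by positivity)
    have h2 : 1 ≤ 2 / ε := by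
      rw [le_div_iff₀ hε]
      linarith
    calc (N : ℝ) ^ θ ≤ (2 / ε * n) ^ θ := Real.rpow_le_rpow (Nat.cast_nonneg _) h1 hθ0
      _ = (2 / ε) ^ θ * (n : ℝ) ^ θ := Real.mul_rpow (by positivity) (Nat.cast_nonneg _)
      _ ≤ (2 / ε) ^ (1 : ℝ) * (n : ℝ) ^ θ := by
          apply mul_le_mul_of_nonneg_right _ (by positivity)
          exact Real.rpow_le_rpow_of_exponent_le h2 hθ.le
      _ = _ := by rw [Real.rpow_one]
  have herr : |V - x ^ (m - 1) * W| ≤
      x ^ (m - 1) * (A * (ε / (2 * (m * (k + 1))))) / Real.log x := by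
    rw [le_div_iff₀ hl]
    have h1 : |V - x ^ (m - 1) * W| * Real.log x * x ≤
        x ^ (m - 1) * (A * (ε / (2 * (m * (k + 1))))) * x := by
      calc |V - x ^ (m - 1) * W| * Real.log x * x =
          (|V - x ^ (m - 1) * W| * x) * Real.log x := by ring
        _ ≤ (nmon k m * (A * (N : ℝ) ^ θ) * (x ^ (m - 1) * (3 * m ^ 2 * (1 + G) ^ 2))) *
            Real.log x := mul_le_mul_of_nonneg_right hnear hl.le
        _ ≤ (nmon k m * (A * (2 / ε * (n : ℝ) ^ θ)) * (x ^ (m - 1) * (3 * m ^ 2 * (1 + G) ^ 2))) *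
            Real.log x := by gcongr
        _ = x ^ (m - 1) * A * (nmon k m * (3 * m ^ 2 * (1 + G) ^ 2) * (2 / ε * (n : ℝ) ^ θ) *
            Real.log x) := by ring
        _ ≤ x ^ (m - 1) * A * (ε / (2 * (m * (k + 1))) * x) :=
            mul_le_mul_of_nonneg_left her (by positivity)
        _ = _ := by ring
    exact le_of_mul_le_mul_right h1 hx0
  have hmain : x ^ (m - 1) * (ε * A / (m * (k + 1) * Real.log x)) ≤ |x ^ (m - 1) * W| := by
    rw [abs_mul, abs_of_pos hxm]
    exact mul_le_mul_of_nonneg_left hlin hxm.le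
  have h5 : |x ^ (m - 1) * W| ≤ |V| + |V - x ^ (m - 1) * W| := by
    have : x ^ (m - 1) * W = V - (V - x ^ (m - 1) * W) := by ring
    calc |x ^ (m - 1) * W| = |V - (V - x ^ (m - 1) * W)| := by rw [← this]
      _ ≤ _ := abs_sub _ _
  have h6 : ε / (2 * (k + 1)) / m * A * x ^ (m - 1) / Real.log x =
      x ^ (m - 1) * (ε * A / (m * (k + 1) * Real.log x)) -
        x ^ (m - 1) * (A * (ε / (2 * (m * (k + 1))))) / Real.log x := by
    field_simp
    ring
  rw [h6]
  linarith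

/-- **polynomial relations** -/
theorem poly (hRH : RiemannHypothesis) (k : ℕ) : ∃ ε : ℝ, 0 < ε ∧ ∀ m : ℕ, 1 ≤ m → ∀ θ : ℝ,
    θ < 1 → ∀ᶠ N : ℕ in atTop, ∀ P : MvPolynomial (Fin k) ℝ, P.totalDegree ≤ m → ∀ i : Fin k,
      grad m P i ≠ 0 → (∀ s, |MvPolynomial.coeff s P| ≤ |grad m P i| * (N : ℝ) ^ θ) →
      ε * N ≤ ({n : ℕ | 1 ≤ n ∧ n ≤ N ∧ 3 ≤ ord n ∧
        ε / m * |grad m P i| * ord n ^ (m - 1) / Real.log (ord n) ≤
          |MvPolynomial.eval (fun j : Fin k => ord (n + j)) P|}.ncard : ℝ) := by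
  obtain ⟨ε0, hε0, h0⟩ := ordinates hRH k
  set ε1 : ℝ := min ε0 1 with hε1
  have hε1p : 0 < ε1 := lt_min hε0 one_pos
  have hε11 : ε1 ≤ 1 := min_le_right _ _
  have hε10 : ε1 ≤ ε0 := min_le_left _ _
  have hk0 : (0 : ℝ) ≤ k := Nat.cast_nonneg _
  refine ⟨ε1 / (2 * (k + 1)), by positivity, fun m hm θ hθ => ?_⟩
  set θ' : ℝ := max θ 0 with hθ'
  have hθ'0 : 0 ≤ θ' := le_max_right _ _
  have hθ'1 : θ' < 1 := max_lt hθ one_pos
  obtain ⟨C, hC, hok⟩ := ok_ev (H177.Lat.rhs_of hRH) k m hm hθ'0 hθ'1 hε1p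
  obtain ⟨n0, hn0⟩ := hok.exists_forall_of_atTop
  have ht : Tendsto (fun n : ℕ => (n : ℝ)) atTop atTop := tendsto_natCast_atTop_atTop
  filter_upwards [h0, eventually_ge_atTop 1, ht.eventually_ge_atTop (2 * n0 / ε1)] with N hN hN1 hN2
  intro P hP i hi hco
  have hm1 : (1 : ℝ) ≤ m := by exact_mod_cast hm
  set A : ℝ := |grad m P i| with hA
  have hA0 : 0 < A := abs_pos.mpr hi
  have hN0 : (1 : ℝ) ≤ N := by exact_mod_cast hN1
  have hco' : ∀ s, |MvPolynomial.coeff s P| ≤ A * (N : ℝ) ^ θ' := fun s => by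
    refine (hco s).trans (mul_le_mul_of_nonneg_left ?_ hA0.le)
    exact Real.rpow_le_rpow_of_exponent_le hN0 (le_max_left _ _)
  set K : ℝ := m * (k + 1) with hK
  have hK0 : 0 < K := by positivity
  obtain ⟨j0, hj0⟩ := cf_low hm P i hi
  have h1 := hN (fun j => K / A * cf m P j) ⟨j0, by
    rw [abs_mul, abs_of_pos (by positivity : 0 < K / A), div_mul_eq_mul_div, le_div_iff₀ hA0,
      one_mul]
    exact hj0⟩ (-(K / A * lead (m - 1) P))
  set S : Set ℕ := {n : ℕ | 1 ≤ n ∧ n ≤ N ∧ ε0 / Real.log (ord n) ≤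
    |∑ j : Fin k, K / A * cf m P j * ord (n + j) - -(K / A * lead (m - 1) P)|} with hS
  set S' : Set ℕ := {n : ℕ | 1 ≤ n ∧ n ≤ N ∧ 3 ≤ ord n ∧
        ε1 / (2 * (k + 1)) / m * A * ord n ^ (m - 1) / Real.log (ord n) ≤
          |MvPolynomial.eval (fun j : Fin k => ord (n + j)) P|} with hS'
  have hfin' : S'.Finite := (Set.finite_Icc 1 N).subset fun m hm => ⟨hm.1, hm.2.1⟩
  have hsub : S ⊆ S' ∪ Set.Icc 1 ⌊ε1 / 2 * N⌋₊ := by
    intro n hn
    obtain ⟨a1, a2, a3⟩ := hn
    by_cases hcase : (n : ℝ) ≤ ε1 / 2 * N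
    · right
      exact ⟨a1, Nat.le_floor hcase⟩
    left
    push Not at hcase
    have hnn : n0 ≤ n := by
      have : (n0 : ℝ) ≤ ε1 / 2 * N := by
        rw [div_le_iff₀ hε1p] at hN2
        linarith
      exact_mod_cast this.trans hcase.le
    have hokn := hn0 n hnn
    have hx3 := hokn.x3
    have hl : 0 < Real.log (ord n) := Real.log_pos (by linarith)
    refine ⟨a1, a2, hx3, ?_⟩
    refine point hm hε1p hC hokn hθ'0 hθ'1 hcase.le hε11 hP i hA0 hco' ?_
    have e1 : ∑ j : Fin k, K / A * cf m P j * ord (n + j) - -(K / A * lead (m - 1) P) =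
        K / A * (∑ j : Fin k, cf m P j * ord (n + j) + lead (m - 1) P) := by
      rw [sub_neg_eq_add, mul_add, Finset.mul_sum]
      congr 1
      refine Finset.sum_congr rfl fun j _ => ?_
      ring
    rw [e1, abs_mul, abs_of_pos (by positivity : 0 < K / A)] at a3
    have e2 : ε1 * A / (K * Real.log (ord n)) = A / K * (ε1 / Real.log (ord n)) := by
      field_simp
    rw [← hK, e2]
    calc A / K * (ε1 / Real.log (ord n)) ≤ A / K * (ε0 / Real.log (ord n)) := by gcongr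
      _ ≤ A / K * (K / A * |∑ j : Fin k, cf m P j * ord (n + j) + lead (m - 1) P|) :=
          mul_le_mul_of_nonneg_left a3 (by positivity)
      _ = _ := by field_simp
  have hcard : (S.ncard : ℝ) ≤ S'.ncard + ε1 / 2 * N := by
    have h2 : S.ncard ≤ S'.ncard + (Set.Icc 1 ⌊ε1 / 2 * N⌋₊ : Set ℕ).ncard :=
      (Set.ncard_le_ncard hsub (hfin'.union (Set.finite_Icc _ _))).trans (Set.ncard_union_le _ _)
    have h3 : (Set.Icc 1 ⌊ε1 / 2 * N⌋₊ : Set ℕ).ncard = ⌊ε1 / 2 * N⌋₊ := by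
      rw [← Finset.coe_Icc, Set.ncard_coe_finset, Nat.card_Icc, Nat.add_sub_cancel]
    rw [h3] at h2
    have h4 : (⌊ε1 / 2 * (N : ℝ)⌋₊ : ℝ) ≤ ε1 / 2 * N := Nat.floor_le (by positivity)
    have h5 : (S.ncard : ℝ) ≤ S'.ncard + (⌊ε1 / 2 * (N : ℝ)⌋₊ : ℝ) := by exact_mod_cast h2
    linarith
  have h2 : ε1 / (2 * (k + 1)) ≤ ε1 / 2 := by
    apply div_le_div_of_nonneg_left hε1p.le two_pos
    linarith
  have h3 : ε1 / (2 * (k + 1)) * N ≤ ε1 / 2 * N := mul_le_mul_of_nonneg_right h2 (by linarith)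
  have h4 : ε1 * N ≤ ε0 * N := mul_le_mul_of_nonneg_right hε10 (by linarith)
  linarith

end Pool.Agent.Y743.PR
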